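import Mathlib

set_option autoImplicit false

/-!
# Linear reset thresholds for automata won against bounded adversaries

We show that if `k ≥ 2n - 4` (and `k ≥ 1`), every `A_k`-automaton with `n` states has a reset word
of length at most `n - 1`.  In particular the question has a positive answer with `C = 1`, `D = 2`.
-/

namespace Pool.Agent.Results.MP_165503_lc.LinearReset

universe u v

/-- The state `q · w` reached from `q` by reading the word `w` in the DFA whose transition map is
`δ` (so `q · a = δ q a` for a letter `a`). -/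
def run {Q : Type u} {α : Type v} (δ : Q → α → Q) (q : Q) (w : List α) : Q :=
  w.foldl δ q

/-- `w` is a reset word: the set `Q · w` has exactly one element. -/
def IsReset {Q : Type u} {α : Type v} (δ : Q → α → Q) (w : List α) : Prop :=
  (Set.range (fun q : Q => run δ q w)).ncard = 1

/-- The DFA is synchronizing: it has a reset word. -/
def Synchronizing {Q : Type u} {α : Type v} (δ : Q → α → Q) : Prop :=
  ∃ w : List α, IsReset δ w

/-- The reset threshold: the minimum length of a reset word
(only meaningful when the automaton is synchronizing). -/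
noncomputable def rt {Q : Type u} {α : Type v} (δ : Q → α → Q) : ℕ :=
  sInf {m : ℕ | ∃ w : List α, w.length = m ∧ IsReset δ w}

/-- A (deterministic) strategy of Alice: her next letter, given the list of all replies that Bob
made so far (her own earlier letters are determined by the strategy and these replies). -/
abbrev Strategy (α : Type v) : Type v := List (List α) → α

/-- Alice's letter in round `i` (rounds are numbered from `0`), when she follows `σ` and Bob's
reply in round `j` is the word `b j`. -/
def aliceMove {α : Type v} (σ : Strategy α) (b : ℕ → List α) (i : ℕ) : α :=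
  σ ((List.range i).map b)

/-- The concatenation of everything played in the first `i` complete rounds. -/
def played {α : Type v} (σ : Strategy α) (b : ℕ → List α) : ℕ → List α
  | 0 => []
  | i + 1 => played σ b i ++ [aliceMove σ b i] ++ b i

/-- `IsAk k δ`: the DFA with transition map `δ` is an `A_k`-automaton.  Alice has a strategy `σ`
such that whatever words `b 0, b 1, ...` of length at most `k` Bob replies with, at some finite
stage (either after a complete number `i` of rounds, or just after Alice's next letter) the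
concatenation of everything played so far is a reset word. -/
def IsAk {Q : Type u} {α : Type v} (k : ℕ) (δ : Q → α → Q) : Prop :=
  ∃ σ : Strategy α, ∀ b : ℕ → List α, (∀ i, (b i).length ≤ k) →
    ∃ i : ℕ, IsReset δ (played σ b i) ∨ IsReset δ (played σ b i ++ [aliceMove σ b i])

section Basics

variable {Q : Type u} {α : Type v} (δ : Q → α → Q)

@[simp] lemma run_nil (q : Q) : run δ q [] = q := rfl

@[simp] lemma run_cons (q : Q) (a : α) (w : List α) : run δ q (a :: w) = run δ (δ q a) w := rfl

lemma run_append (q : Q) (w v : List α) : run δ q (w ++ v) = run δ (run δ q w) v := by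
  simp [run, List.foldl_append]

lemma isReset_iff [Nonempty Q] (w : List α) :
    IsReset δ w ↔ ∀ p q : Q, run δ p w = run δ q w := by
  unfold IsReset
  rw [Set.ncard_eq_one]
  constructor
  · rintro ⟨a, ha⟩ p q
    have hp : run δ p w ∈ Set.range (fun q : Q => run δ q w) := ⟨p, rfl⟩
    have hq : run δ q w ∈ Set.range (fun q : Q => run δ q w) := ⟨q, rfl⟩
    rw [ha] at hp hq
    rw [Set.mem_singleton_iff] at hp hq
    rw [hp, hq]
  · intro h
    obtain ⟨q₀⟩ := ‹Nonempty Q›
    refine ⟨run δ q₀ w, ?_⟩
    ext x
    simp only [Set.mem_range, Set.mem_singleton_iff]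
    constructor
    · rintro ⟨y, rfl⟩
      exact h y q₀
    · rintro rfl
      exact ⟨q₀, rfl⟩

/-- `p` and `q` are merged by a single letter (this includes `p = q` when there is a letter). -/
def M (p q : Q) : Prop := ∃ a : α, δ p a = δ q a

/-- all successors of the pair `p,q` under words of length at most `j` are merged by a letter -/
def G (j : ℕ) (p q : Q) : Prop := ∀ w : List α, w.length ≤ j → M δ (run δ p w) (run δ q w)

lemma G_symm (j : ℕ) {p q : Q} (h : G δ j p q) : G δ j q p := by
  intro w hw
  obtain ⟨a, ha⟩ := h w hw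
  exact ⟨a, ha.symm⟩

lemma G_anti {i j : ℕ} (hij : i ≤ j) {p q : Q} (h : G δ j p q) : G δ i p q :=
  fun w hw => h w (hw.trans hij)

lemma G_step {j : ℕ} {p q : Q} (h : G δ (j + 1) p q) (a : α) : G δ j (δ p a) (δ q a) := by
  intro w hw
  have := h (a :: w) (by simpa using hw)
  simpa using this

lemma G_M {j : ℕ} {p q : Q} (h : G δ j p q) : M δ p q := by
  have := h [] (by simp)
  simpa using this

/-- The equivalence relation generated by `G j`. -/
def S (j : ℕ) : Setoid Q := Relation.EqvGen.setoid (G δ j)

lemma S_anti {i j : ℕ} (hij : i ≤ j) : S δ j ≤ S δ i := by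
  intro p q h
  have h' : Relation.EqvGen (G δ j) p q := h
  exact Relation.EqvGen.mono (fun a b hab => G_anti δ hij hab) _ _ h'

lemma S_step {j : ℕ} {p q : Q} (h : (S δ (j + 1)) p q) (a : α) : (S δ j) (δ p a) (δ q a) := by
  have h' : Relation.EqvGen (G δ (j + 1)) p q := h
  show Relation.EqvGen (G δ j) (δ p a) (δ q a)
  induction h' with
  | rel x y hxy => exact Relation.EqvGen.rel _ _ (G_step δ hxy a)
  | refl x => exact Relation.EqvGen.refl _
  | symm x y _ ih => exact Relation.EqvGen.symm _ _ (ih (by assumption))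
  | trans x y z _ _ ih1 ih2 => exact Relation.EqvGen.trans _ _ _ (ih1 (by assumption)) (ih2 (by assumption))

/-- `K` is connected by `G j`-steps inside `K`. -/
def Chained (j : ℕ) (K : Set Q) : Prop :=
  ∀ p ∈ K, ∀ q ∈ K, Relation.ReflTransGen (fun x y => x ∈ K ∧ y ∈ K ∧ G δ j x y) p q

lemma exists_edge {j : ℕ} {K : Set Q} {p q : Q} (hpq : p ≠ q)
    (h : Relation.ReflTransGen (fun x y => x ∈ K ∧ y ∈ K ∧ G δ j x y) p q) :
    ∃ x ∈ K, ∃ y ∈ K, x ≠ y ∧ G δ j x y := by
  induction h with
  | refl => exact absurd rfl hpq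
  | @tail b c hab hbc ih =>
    by_cases hpb : p = b
    · subst hpb
      exact ⟨p, hbc.1, c, hbc.2.1, hpq, hbc.2.2⟩
    · exact ih hpb

/-- Each equivalence class of the relation generated by `G j` is connected by steps inside it. -/
lemma class_chained (j : ℕ) (p₀ : Q) : Chained δ j {x | (S δ j) p₀ x} := by
  intro p hp q hq
  have hpq : Relation.EqvGen (G δ j) p q :=
    Relation.EqvGen.trans _ _ _ (Relation.EqvGen.symm _ _ hp) hq
  have : Std.Symm (G δ j) := ⟨fun a b h => G_symm δ j h⟩
  rw [Relation.EqvGen.eqvGen_eq_reflTransGen] at hpq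
  have key : Relation.ReflTransGen
      (fun x y => x ∈ {x | (S δ j) p₀ x} ∧ y ∈ {x | (S δ j) p₀ x} ∧ G δ j x y) p q ∧
      q ∈ {x | (S δ j) p₀ x} := by
    clear hq
    induction hpq with
    | refl => exact ⟨Relation.ReflTransGen.refl, hp⟩
    | @tail b c _ hbc ih =>
      have hc : c ∈ {x | (S δ j) p₀ x} :=
        Relation.EqvGen.trans _ _ _ ih.2 (Relation.EqvGen.rel _ _ hbc)
      exact ⟨ih.1.tail ⟨ih.2, hc, hbc⟩, hc⟩
  exact key.1

/-- A set connected by `G j`-steps with at most `s + 1 ≤ j + 2` elements is merged by a word of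
length at most `s`. -/
lemma merge [Finite Q] : ∀ (s j : ℕ) (K : Set Q), K.ncard ≤ s + 1 → s ≤ j + 1 → Chained δ j K →
    ∃ w : List α, w.length ≤ s ∧ ∀ p ∈ K, ∀ q ∈ K, run δ p w = run δ q w := by
  intro s
  induction s with
  | zero =>
    intro j K hK _ _
    refine ⟨[], le_rfl, fun p hp q hq => ?_⟩
    have := (Set.ncard_le_one (Set.toFinite K)).1 hK p hp q hq
    simpa using this
  | succ s ih =>
    intro j K hK hsj hch
    by_cases hall : ∀ p ∈ K, ∀ q ∈ K, p = q
    · exact ⟨[], Nat.zero_le _, fun p hp q hq => by simpa using hall p hp q hq⟩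
    · push Not at hall
      obtain ⟨p, hp, q, hq, hpq⟩ := hall
      obtain ⟨x, hx, y, hy, hxy, hG⟩ := exists_edge δ hpq (hch p hp q hq)
      obtain ⟨a, ha⟩ := G_M δ hG
      have hcard : ((fun z => δ z a) '' K).ncard ≤ s + 1 := by
        have hlt : ((fun z => δ z a) '' K).ncard < K.ncard := by
          refine lt_of_le_of_ne (Set.ncard_image_le (Set.toFinite K)) ?_
          intro heq
          have hinj := Set.injOn_of_ncard_image_eq heq (Set.toFinite K)
          exact hxy (hinj hx hy ha)
        omega
      obtain rfl | ⟨s', rfl⟩ : s = 0 ∨ ∃ s', s = s' + 1 := by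
        cases s with
        | zero => exact Or.inl rfl
        | succ s' => exact Or.inr ⟨s', rfl⟩
      · refine ⟨[a], by simp, fun p hp q hq => ?_⟩
        have := (Set.ncard_le_one (Set.toFinite _)).1 hcard (δ p a) ⟨p, hp, rfl⟩ (δ q a)
          ⟨q, hq, rfl⟩
        simpa using this
      · obtain ⟨j', rfl⟩ : ∃ j', j = j' + 1 := ⟨j - 1, by omega⟩
        have hch' : Chained δ j' ((fun z => δ z a) '' K) := by
          rintro _ ⟨p, hp, rfl⟩ _ ⟨q, hq, rfl⟩
          refine Relation.ReflTransGen.lift (fun z => δ z a) ?_ _ _ (hch p hp q hq)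
          rintro u v ⟨hu, hv, huv⟩
          exact ⟨⟨u, hu, rfl⟩, ⟨v, hv, rfl⟩, G_step δ huv a⟩
        obtain ⟨w, hw, hmerge⟩ := ih j' _ hcard (by omega) hch'
        refine ⟨a :: w, by simpa using hw, fun p hp q hq => ?_⟩
        exact hmerge (δ p a) ⟨p, hp, rfl⟩ (δ q a) ⟨q, hq, rfl⟩

/-- If Alice wins the `k`-game and there are at least two states then `G k` is nontrivial. -/
lemma exists_G_of_isAk [Nontrivial Q] {k : ℕ} (h : IsAk k δ) : ∃ p q : Q, p ≠ q ∧ G δ k p q := by
  classical
  by_contra hcon
  push Not at hcon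
  have hcon' : ∀ p q : Q, p ≠ q → ∃ w : List α, w.length ≤ k ∧ ¬ M δ (run δ p w) (run δ q w) := by
    intro p q hpq
    have := hcon p q hpq
    unfold G at this
    push Not at this
    exact this
  obtain ⟨σ, hσ⟩ := h
  -- the initial bad pair
  obtain ⟨p₁, q₁, hpq₁⟩ := exists_pair_ne Q
  obtain ⟨w₀, -, hw₀⟩ := hcon' p₁ q₁ hpq₁
  set p₀ := run δ p₁ w₀ with hp₀
  set q₀ := run δ q₁ w₀ with hq₀
  -- Bob's reply
  let reply : List (List α) × Q × Q → List α := fun s =>
    if h : ∃ w : List α, w.length ≤ k ∧
        ¬ M δ (run δ (δ s.2.1 (σ s.1)) w) (run δ (δ s.2.2 (σ s.1)) w) then h.choose else []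
  let next : List (List α) × Q × Q → List (List α) × Q × Q := fun s =>
    (s.1 ++ [reply s], run δ (δ s.2.1 (σ s.1)) (reply s), run δ (δ s.2.2 (σ s.1)) (reply s))
  let st : ℕ → List (List α) × Q × Q := fun i => next^[i] ([], p₀, q₀)
  have hst0 : st 0 = ([], p₀, q₀) := rfl
  have hst : ∀ i, st (i + 1) = next (st i) := fun i => Function.iterate_succ_apply' next i _
  let b : ℕ → List α := fun i => reply (st i)
  have hreply_len : ∀ s, (reply s).length ≤ k := by
    intro s
    by_cases hs : ∃ w : List α, w.length ≤ k ∧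
        ¬ M δ (run δ (δ s.2.1 (σ s.1)) w) (run δ (δ s.2.2 (σ s.1)) w)
    · simp only [reply, dif_pos hs]
      exact hs.choose_spec.1
    · simp only [reply, dif_neg hs]
      simp
  have hreply : ∀ s : List (List α) × Q × Q, ¬ M δ s.2.1 s.2.2 →
      ¬ M δ (run δ (δ s.2.1 (σ s.1)) (reply s)) (run δ (δ s.2.2 (σ s.1)) (reply s)) := by
    intro s hs
    have hne : δ s.2.1 (σ s.1) ≠ δ s.2.2 (σ s.1) := fun h => hs ⟨_, h⟩
    have hex := hcon' _ _ hne
    simp only [reply, dif_pos hex]
    exact hex.choose_spec.2
  have hhist : ∀ i, (st i).1 = (List.range i).map b := by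
    intro i
    induction i with
    | zero => simp [hst0]
    | succ i ih =>
      rw [hst, List.range_succ, List.map_append, ← ih]
      simp [next, b]
  have hbad : ∀ i, ¬ M δ (st i).2.1 (st i).2.2 := by
    intro i
    induction i with
    | zero => simpa [hst0] using hw₀
    | succ i ih =>
      rw [hst]
      exact hreply _ ih
  have hmove : ∀ i, σ (st i).1 = aliceMove σ b i := by
    intro i
    rw [hhist]
    rfl
  have hrun : ∀ i, (st i).2.1 = run δ p₀ (played σ b i) ∧ (st i).2.2 = run δ q₀ (played σ b i) := by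
    intro i
    induction i with
    | zero => simp [hst0, played]
    | succ i ih =>
      rw [hst]
      simp only [next, played, run_append, run_cons, run_nil]
      rw [← ih.1, ← ih.2, hmove]
      exact ⟨rfl, rfl⟩
  have : Nonempty Q := ⟨p₀⟩
  obtain ⟨i, hi⟩ := hσ b (fun i => hreply_len _)
  have hb := hbad i
  rw [(hrun i).1, (hrun i).2] at hb
  rcases hi with hi | hi
  · rw [isReset_iff] at hi
    exact hb ⟨σ [], by rw [hi p₀ q₀]⟩
  · rw [isReset_iff] at hi
    have := hi p₀ q₀
    rw [run_append, run_append] at this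
    exact hb ⟨_, this⟩

/-- number of classes of the equivalence relation generated by `G j` -/
noncomputable def cl (j : ℕ) : ℕ := Nat.card (Quotient (S δ j))

lemma cl_pos [Finite Q] [Nonempty Q] (j : ℕ) : 1 ≤ cl δ j := by
  unfold cl
  have : Nonempty (Quotient (S δ j)) := ⟨Quotient.mk _ (Classical.arbitrary Q)⟩
  exact Nat.card_pos

/-- The natural surjection between quotients. -/
def proj (j : ℕ) : Quotient (S δ (j + 1)) → Quotient (S δ j) :=
  Quotient.map id (fun _ _ h => S_anti δ (Nat.le_succ j) h)

lemma proj_surj (j : ℕ) : Function.Surjective (proj δ j) := by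
  intro x
  induction x using Quotient.inductionOn with
  | h x => exact ⟨Quotient.mk _ x, rfl⟩

lemma cl_le [Finite Q] (j : ℕ) : cl δ j ≤ cl δ (j + 1) :=
  Nat.card_le_card_of_surjective _ (proj_surj δ j)

lemma S_eq_of_cl_eq [Finite Q] {j : ℕ} (h : cl δ j = cl δ (j + 1)) : S δ (j + 1) = S δ j := by
  have hbij : Function.Bijective (proj δ j) :=
    (Nat.bijective_iff_surjective_and_card _).2 ⟨proj_surj δ j, h.symm⟩
  refine le_antisymm (S_anti δ (Nat.le_succ j)) ?_
  intro x y hxy
  have : proj δ j (Quotient.mk _ x) = proj δ j (Quotient.mk _ y) := by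
    show Quotient.mk (S δ j) x = Quotient.mk (S δ j) y
    exact Quotient.sound hxy
  exact Quotient.exact (hbij.1 this)

lemma cl_lt [Finite Q] {k : ℕ} (h : ∃ p q : Q, p ≠ q ∧ G δ k p q) : cl δ k + 1 ≤ Nat.card Q := by
  have hsurj : Function.Surjective (Quotient.mk (S δ k)) := Quotient.mk_surjective
  have hle : cl δ k ≤ Nat.card Q := Nat.card_le_card_of_surjective _ hsurj
  rcases lt_or_eq_of_le hle with hlt | heq
  · exact hlt
  · exfalso
    obtain ⟨p, q, hpq, hG⟩ := h
    have hbij : Function.Bijective (Quotient.mk (S δ k)) :=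
      (Nat.bijective_iff_surjective_and_card _).2 ⟨hsurj, heq.symm⟩
    exact hpq (hbij.1 (Quotient.sound (Relation.EqvGen.rel _ _ hG)))

lemma class_card [Finite Q] (j : ℕ) (p₀ : Q) :
    ({x | (S δ j) p₀ x} : Set Q).ncard + cl δ j ≤ Nat.card Q + 1 := by
  classical
  set K : Set Q := {x | (S δ j) p₀ x} with hK
  have hsurj : Function.Surjective
      (fun x : (insert p₀ Kᶜ : Set Q) => Quotient.mk (S δ j) x.1) := by
    intro y
    induction y using Quotient.inductionOn with
    | h y =>
      by_cases hy : y ∈ K
      · exact ⟨⟨p₀, Set.mem_insert _ _⟩, Quotient.sound hy⟩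
      · exact ⟨⟨y, Set.mem_insert_of_mem _ hy⟩, rfl⟩
  have h1 : cl δ j ≤ (insert p₀ Kᶜ : Set Q).ncard := by
    have := Nat.card_le_card_of_surjective _ hsurj
    simpa [cl, Nat.card_coe_set_eq] using this
  have h2 : (insert p₀ Kᶜ : Set Q).ncard ≤ Kᶜ.ncard + 1 := Set.ncard_insert_le _ _
  have h3 : K.ncard + Kᶜ.ncard = Nat.card Q := Set.ncard_add_ncard_compl K
  omega

/-- The key step: some `S j` is a congruence, with control on `j` and the number of classes. -/
lemma exists_congruence [Finite Q] [Nonempty Q] {k : ℕ} (hk : Nat.card Q ≤ k + 1)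
    (h : ∃ p q : Q, p ≠ q ∧ G δ k p q) :
    ∃ j : ℕ, S δ (j + 1) = S δ j ∧ k + cl δ j ≤ j + Nat.card Q ∧ cl δ j + 1 ≤ Nat.card Q := by
  by_contra hcon
  push Not at hcon
  have key : ∀ t ≤ k, cl δ (k - t) + t + 1 ≤ Nat.card Q := by
    intro t
    induction t with
    | zero => intro _; simpa using cl_lt δ h
    | succ t ih =>
      intro ht
      have ih' := ih (by omega)
      obtain ⟨j, hj⟩ : ∃ j, k - t = j + 1 := ⟨k - t - 1, by omega⟩
      have hj' : k - (t + 1) = j := by omega
      rw [hj'] 
      rw [hj] at ih'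
      have hle := cl_le δ j
      rcases lt_or_eq_of_le hle with hlt | heq
      · omega
      · have := hcon j (S_eq_of_cl_eq δ heq) (by omega)
        omega
  have := key k le_rfl
  have := cl_pos δ (k - k)
  omega

end Basics

/-- The explicit bound: if `k ≥ 1` and `k ≥ 2n - 4` then any `A_k`-automaton with `n` states has a
reset word of length at most `n - 1`. -/
theorem explicit_bound {α : Type v} {k : ℕ} (hk : 1 ≤ k) :
    ∀ (n : ℕ) (Q : Type u) [Finite Q] [Nonempty Q] (δ : Q → α → Q), Nat.card Q = n →
      2 * n ≤ k + 4 → IsAk k δ → ∃ w : List α, w.length + 1 ≤ n ∧ IsReset δ w := by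
  intro n
  induction n using Nat.strong_induction_on with
  | _ n ih =>
    intro Q _ _ δ hn hkn hA
    have hnpos : 1 ≤ n := by
      rw [← hn]
      exact Nat.card_pos
    rcases Nat.eq_or_lt_of_le hnpos with h1 | h2
    · refine ⟨[], by simp [← h1], ?_⟩
      rw [isReset_iff]
      intro p q
      have : Subsingleton Q := by
        rw [← Finite.card_le_one_iff_subsingleton]
        omega
      exact congrArg (fun q => run δ q []) (Subsingleton.elim p q)
    · have : Nontrivial Q := by
        rw [← Finite.one_lt_card_iff_nontrivial]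
        omega
      obtain ⟨j, hj, hjk, hcl⟩ := exists_congruence δ (k := k) (by omega) (exists_G_of_isAk δ hA)
      -- the quotient automaton
      let δ' : Quotient (S δ j) → α → Quotient (S δ j) := fun x a =>
        Quotient.map (fun q => δ q a) (fun p q hpq => S_step δ (hj ▸ hpq) a) x
      have hrun : ∀ (w : List α) (q : Q),
          run δ' (Quotient.mk _ q) w = Quotient.mk _ (run δ q w) := by
        intro w
        induction w with
        | nil => intro q; rfl
        | cons a w ihw => intro q; exact ihw (δ q a)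
      have hreset : ∀ w : List α, IsReset δ w → IsReset δ' w := by
        intro w hw
        have : Nonempty (Quotient (S δ j)) := ⟨Quotient.mk _ (Classical.arbitrary Q)⟩
        rw [isReset_iff] at hw ⊢
        intro x y
        induction x using Quotient.inductionOn with
        | h x =>
          induction y using Quotient.inductionOn with
          | h y => rw [hrun, hrun, hw x y]
      have hA' : IsAk k δ' := by
        obtain ⟨σ, hσ⟩ := hA
        refine ⟨σ, fun b hb => ?_⟩
        obtain ⟨i, hi⟩ := hσ b hb
        exact ⟨i, hi.imp (hreset _) (hreset _)⟩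
      have : Nonempty (Quotient (S δ j)) := ⟨Quotient.mk _ (Classical.arbitrary Q)⟩
      obtain ⟨u, hu, hur⟩ := ih (cl δ j) (by omega) (Quotient (S δ j)) δ' rfl (by omega) hA'
      -- all states are now in a single class
      rw [isReset_iff] at hur
      obtain ⟨p₀⟩ := ‹Nonempty Q›
      set K : Set Q := {x | (S δ j) (run δ p₀ u) x} with hK
      have hmem : ∀ q : Q, run δ q u ∈ K := by
        intro q
        have := hur (Quotient.mk _ p₀) (Quotient.mk _ q)
        rw [hrun, hrun] at this
        exact Quotient.exact this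
      have hKcard : K.ncard + cl δ j ≤ Nat.card Q + 1 := class_card δ j (run δ p₀ u)
      have hclpos := cl_pos δ j
      have hch : Chained δ (j + 1) K := by
        have := class_chained δ (j + 1) (run δ p₀ u)
        rw [hj] at this
        exact this
      obtain ⟨w, hw, hmerge⟩ := merge δ (n - cl δ j) (j + 1) K (by omega) (by omega) hch
      refine ⟨u ++ w, ?_, ?_⟩
      · rw [List.length_append]
        omega
      · rw [isReset_iff]
        intro p q
        rw [run_append, run_append]
        exact hmerge _ (hmem p) _ (hmem q)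

/-- **Positive answer to Q1** (with `C = 1` and `D = 2`): there are real constants `C, D > 0` such
that for all `n ≥ 1`, all integers `k ≥ D n` and all `A_k`-automata with `n` states (over any finite
non-empty alphabet), the automaton is synchronizing and its reset threshold is at most `C n`. -/
theorem result :
    ∃ C D : ℝ, 0 < C ∧ 0 < D ∧
      ∀ n : ℕ, 1 ≤ n → ∀ k : ℕ, D * (n : ℝ) ≤ (k : ℝ) →
        ∀ (Q : Type u) (α : Type v) [Fintype Q] [Nonempty Q] [Fintype α] [Nonempty α]
          (δ : Q → α → Q), Fintype.card Q = n → IsAk k δ →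
            Synchronizing δ ∧ (rt δ : ℝ) ≤ C * (n : ℝ) := by
  refine ⟨1, 2, one_pos, two_pos, ?_⟩
  intro n hn k hk Q α _ _ _ _ δ hcard hA
  have hk' : 2 * n ≤ k := by exact_mod_cast hk
  obtain ⟨w, hw, hwr⟩ := explicit_bound (k := k) (by omega) n Q δ (by simpa using hcard)
    (by omega) hA
  refine ⟨⟨w, hwr⟩, ?_⟩
  have h1 : rt δ ≤ w.length := Nat.sInf_le ⟨w, rfl, hwr⟩
  have h2 : rt δ ≤ n := by omega
  rw [one_mul]
  exact_mod_cast h2

end Pool.Agent.Results.MP_165503_lc.LinearReset
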